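import Pool.Agent.J4H9.BF.Stm

/-!
Project BF of helper9 (MP_0b9e0b_ag): (JOR).
-/

set_option autoImplicit false

namespace Pool.Agent.J4H57.BF

open Pool.Agent.J4H9.BF
open scoped Pointwise

section
variable {G X : Type} [Group G] [MulAction G X] {bar : X → X}

/-- the pairs, as a set of sets with an action of `G` -/
def Prs (G : Type) {X : Type} [Group G] [MulAction G X] {bar : X → X} (h : Sgn G X bar) :
    SubMulAction G (Set X) where
  carrier := Set.range fun x : X => ({x, bar x} : Set X)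
  smul_mem' := by
    rintro c _ ⟨x, rfl⟩
    refine ⟨c • x, ?_⟩
    show ({c • x, bar (c • x)} : Set X) = c • ({x, bar x} : Set X)
    rw [Set.smul_set_insert, Set.smul_set_singleton, h.comm]

/-- the pair of `x` -/
def cls (h : Sgn G X bar) (x : X) : Prs G h := ⟨{x, bar x}, x, rfl⟩

lemma smul_cls (h : Sgn G X bar) (c : G) (x : X) : c • cls h x = cls h (c • x) := by
  apply Subtype.ext
  show c • ({x, bar x} : Set X) = {c • x, bar (c • x)}
  rw [Set.smul_set_insert, Set.smul_set_singleton, h.comm]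

lemma cls_eq (h : Sgn G X bar) (x y : X) : cls h x = cls h y ↔ x = y ∨ x = bar y := by
  constructor
  · intro e
    have h1 : ({x, bar x} : Set X) = {y, bar y} := congrArg Subtype.val e
    have h2 : x ∈ ({x, bar x} : Set X) := Set.mem_insert _ _
    rw [h1] at h2
    simpa using h2
  · rintro (rfl | rfl)
    · rfl
    · apply Subtype.ext
      show ({bar y, bar (bar y)} : Set X) = {y, bar y}
      rw [h.bb, Set.pair_comm]

lemma cls_surj (h : Sgn G X bar) (p : Prs G h) : ∃ x, cls h x = p := by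
  obtain ⟨_, x, rfl⟩ := p
  exact ⟨x, rfl⟩

lemma card_prs [Finite X] (h : Sgn G X bar) : Nat.card X = 2 * Nat.card (Prs G h) := by
  classical
  have := Fintype.ofFinite X
  have : Finite (Prs G h) := Subtype.finite
  have := Fintype.ofFinite (Prs G h)
  rw [Nat.card_eq_fintype_card, Nat.card_eq_fintype_card, ← Finset.card_univ,
    Finset.card_eq_sum_card_fiberwise (f := cls h) (t := Finset.univ)
      (fun _ _ => Finset.mem_coe.mpr (Finset.mem_univ _))]
  have h1 : ∀ p : Prs G h, (Finset.univ.filter fun a => cls h a = p).card = 2 := by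
    intro p
    obtain ⟨y, rfl⟩ := cls_surj h p
    have : (Finset.univ.filter fun a => cls h a = cls h y) = {y, bar y} := by
      ext a
      simp [cls_eq]
    rw [this, Finset.card_pair (h.ne y).symm]
  rw [Finset.sum_congr rfl fun p _ => h1 p, Finset.sum_const, Finset.card_univ, smul_eq_mul,
    mul_comm]

end

theorem t_JOR : S_JOR := by
  intro G X _ _ _ _ bar g r h hg hr hgr hrg τ x₀ hτ m hm a b ha hb
  classical
  have hfin : Finite (Prs G h) := Subtype.finite
  have hα : Nat.card (Prs G h) = g := by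
    have := card_prs (G := G) h
    omega
  have hr0 : 0 < r := hr.pos
  -- the cycle
  obtain ⟨C, hC⟩ : ∃ C : Set (Prs G h), C = Set.range fun k : ℕ => cls h (τ ^ k • x₀) := ⟨_, rfl⟩
  have hmod : ∀ k : ℕ, τ ^ k • x₀ = τ ^ (k % r) • x₀ := by
    intro k
    have h1 : ∀ q : ℕ, τ ^ (r * q) • x₀ = x₀ := by
      intro q
      induction q with
      | zero => simp
      | succ q ih => rw [mul_add, mul_one, pow_add, mul_smul, hτ.per, ih]
    conv_lhs => rw [← Nat.mod_add_div k r, pow_add, mul_smul, h1]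
  have hC2 : C = (fun i : Fin r => cls h (τ ^ (i : ℕ) • x₀)) '' Set.univ := by
    rw [hC]
    ext p
    constructor
    · rintro ⟨k, rfl⟩
      refine ⟨⟨k % r, Nat.mod_lt _ hr0⟩, Set.mem_univ _, ?_⟩
      show cls h (τ ^ (k % r) • x₀) = cls h (τ ^ k • x₀)
      rw [← hmod]
    · rintro ⟨i, -, rfl⟩
      exact ⟨i, rfl⟩
  have hCn : C.ncard = r := by
    rw [hC2, Set.InjOn.ncard_image, Set.ncard_univ, Nat.card_eq_fintype_card, Fintype.card_fin]
    intro i _ j _ hij
    rcases (cls_eq h _ _).mp hij with e | e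
    · exact Fin.ext (hτ.inj i i.2 j j.2 e)
    · exact absurd e (hτ.ne i j)
  have hs1 : (Cᶜ : Set (Prs G h)).ncard = (g - r - 1) + 1 := by
    have := Set.ncard_add_ncard_compl C
    rw [hCn, hα] at this
    omega
  have hτs : τ ∈ fixingSubgroup G (Cᶜ : Set (Prs G h)) := by
    rw [mem_fixingSubgroup_iff]
    intro p hp
    obtain ⟨x, rfl⟩ := cls_surj h p
    rw [smul_cls]
    rcases hτ.fix x with ⟨k, hk⟩ | hx
    · exfalso
      apply hp
      rw [hC]
      refine ⟨k, ?_⟩
      show cls h (τ ^ k • x₀) = cls h x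
      rw [eq_comm, cls_eq]
      exact hk
    · rw [hx]
  have hCm : ∀ p' : Prs G h, p' ∈ C → ∃ k : ℕ, cls h (τ ^ k • x₀) = p' := by
    intro p' hp'
    rw [hC] at hp'
    exact hp'
  have htr : MulAction.IsPretransitive (fixingSubgroup G (Cᶜ : Set (Prs G h)))
      (SubMulAction.ofFixingSubgroup G (Cᶜ : Set (Prs G h))) := by
    refine ⟨fun p q => ?_⟩
    have hp : (p : Prs G h) ∈ C := not_not.mp p.2
    have hq : (q : Prs G h) ∈ C := not_not.mp q.2
    obtain ⟨k, hk⟩ := hCm _ hp
    obtain ⟨l, hl⟩ := hCm _ hq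
    refine ⟨⟨τ ^ l * (τ ^ k)⁻¹, mul_mem (pow_mem hτs l) (inv_mem (pow_mem hτs k))⟩, ?_⟩
    apply Subtype.ext
    show (τ ^ l * (τ ^ k)⁻¹) • (p : Prs G h) = q
    rw [← hk, ← hl]
    show (τ ^ l * (τ ^ k)⁻¹) • cls h (τ ^ k • x₀) = cls h (τ ^ l • x₀)
    rw [smul_cls, mul_smul, inv_smul_smul]
  have hcard : Nat.card (SubMulAction.ofFixingSubgroup G (Cᶜ : Set (Prs G h))) = r := by
    have h1 : Nat.card (SubMulAction.ofFixingSubgroup G (Cᶜ : Set (Prs G h))) =
        Nat.card ((Cᶜᶜ : Set (Prs G h)) : Type) := rfl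
    rw [h1, compl_compl, Nat.card_coe_set_eq, hCn]
  have hprim : MulAction.IsPreprimitive (fixingSubgroup G (Cᶜ : Set (Prs G h)))
      (SubMulAction.ofFixingSubgroup G (Cᶜ : Set (Prs G h))) :=
    MulAction.IsPreprimitive.of_prime_card (by rw [hcard]; exact hr)
  have htG : MulAction.IsPretransitive G (Prs G h) := by
    refine ⟨fun p q => ?_⟩
    obtain ⟨x, rfl⟩ := cls_surj h p
    obtain ⟨y, rfl⟩ := cls_surj h q
    obtain ⟨c, hc⟩ := h.trans x y
    exact ⟨c, by rw [smul_cls, cls_eq]; exact hc⟩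
  have hG : MulAction.IsPreprimitive G (Prs G h) := by
    let f : SubMulAction.ofFixingSubgroup G (Cᶜ : Set (Prs G h))
        →ₑ[fun u : fixingSubgroup G (Cᶜ : Set (Prs G h)) => (u : G)] (Prs G h) :=
      { toFun := fun p => (p : Prs G h)
        map_smul' := fun _ _ => rfl }
    refine MulAction.IsPreprimitive.of_card_lt (f := f) ?_
    have h1 : Set.range f = C := by
      ext p
      constructor
      · rintro ⟨q, rfl⟩
        exact not_not.mp q.2
      · intro hp
        exact ⟨⟨p, not_not.mpr hp⟩, rfl⟩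
    rw [h1, hCn, hα]
    exact hgr
  have hM := MulAction.IsPreprimitive.isMultiplyPreprimitive hG (s := (Cᶜ : Set (Prs G h)))
    (n := g - r - 1) hs1 (by rw [hα]; have := hr.two_le; omega) hprim
  have hM2 : MulAction.IsMultiplyPretransitive G (Prs G h) (g - r - 1 + 2) :=
    hM.isMultiplyPretransitive
  have hM3 : MulAction.IsMultiplyPretransitive G (Prs G h) m :=
    MulAction.isMultiplyPretransitive_of_le (n := g - r - 1 + 2) (by omega)
      (by rw [hα]; have := hr.two_le; omega)
  obtain ⟨σ, hσ⟩ := MulAction.exists_smul_eq G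
    (⟨fun i => cls h (a i), fun i j hij => by
      by_contra hne
      rcases (cls_eq h _ _).mp hij with e | e
      · exact (ha i j hne).1 e
      · exact (ha i j hne).2 e⟩ : Fin m ↪ Prs G h)
    (⟨fun i => cls h (b i), fun i j hij => by
      by_contra hne
      rcases (cls_eq h _ _).mp hij with e | e
      · exact (hb i j hne).1 e
      · exact (hb i j hne).2 e⟩ : Fin m ↪ Prs G h)
  refine ⟨σ, fun i => ?_⟩
  have h1 := DFunLike.congr_fun hσ i
  have h2 : σ • cls h (a i) = cls h (b i) := h1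
  rw [smul_cls] at h2
  exact (cls_eq h _ _).mp h2

end Pool.Agent.J4H57.BF
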